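import Pool.Agent.H32.RQ.Targets

/-!
Row CUB: many disjoint cubes on which both forms are small.
-/

set_option autoImplicit false

open Finset Pool.Agent.H32.RQ

namespace Pool.Agent.H80.RQ

lemma two_md_le (s : ℕ) : 2 * md s ≤ s * (s + 1) := by
  have h0 : md s = ((univ : Finset (Fin s × Fin s)).filter fun p => p.1 ≤ p.2).card :=
    Fintype.card_subtype _
  have h1 : ((univ : Finset (Fin s × Fin s)).filter fun p => p.1 ≤ p.2).card =
      ((univ : Finset (Fin s × Fin s)).filter fun p => p.2 ≤ p.1).card := by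
    apply Finset.card_bij (fun p _ => (p.2, p.1))
    · intro p hp
      simp only [mem_filter, mem_univ, true_and] at hp ⊢
      exact hp
    · intro p _ q _ h
      have h2 := Prod.mk.inj h
      exact Prod.ext h2.2 h2.1
    · intro q hq
      refine ⟨(q.2, q.1), ?_, rfl⟩
      simp only [mem_filter, mem_univ, true_and] at hq ⊢
      exact hq
  have h2 := Finset.card_union_add_card_inter
    ((univ : Finset (Fin s × Fin s)).filter fun p => p.1 ≤ p.2)
    ((univ : Finset (Fin s × Fin s)).filter fun p => p.2 ≤ p.1)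
  have h3 : (((univ : Finset (Fin s × Fin s)).filter fun p => p.1 ≤ p.2) ∪
      ((univ : Finset (Fin s × Fin s)).filter fun p => p.2 ≤ p.1)).card ≤ s * s := by
    refine (Finset.card_le_univ _).trans ?_
    simp
  have h4 : (((univ : Finset (Fin s × Fin s)).filter fun p => p.1 ≤ p.2) ∩
      ((univ : Finset (Fin s × Fin s)).filter fun p => p.2 ≤ p.1)).card ≤ s := by
    have h5 : (((univ : Finset (Fin s × Fin s)).filter fun p => p.1 ≤ p.2) ∩
        ((univ : Finset (Fin s × Fin s)).filter fun p => p.2 ≤ p.1)) ⊆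
        (univ : Finset (Fin s)).image fun i => (i, i) := by
      intro p hp
      simp only [mem_inter, mem_filter, mem_univ, true_and, mem_image] at hp ⊢
      exact ⟨p.1, Prod.ext rfl (le_antisymm hp.1 hp.2)⟩
    refine (Finset.card_le_card h5).trans ?_
    refine Finset.card_image_le.trans ?_
    simp
  rw [h0]
  rw [← h1] at h2
  have h5 : s * (s + 1) = s * s + s := by ring
  omega

lemma card_ab {s : ℕ} {a b : Fin s} (hab : a ≠ b) :
    ((univ : Finset (Fin s)).filter fun j => ¬ (j = a ∨ j = b)).card = s - 2 := by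
  have h1 : ((univ : Finset (Fin s)).filter fun j => ¬ (j = a ∨ j = b)) =
      univ \ ({a, b} : Finset (Fin s)) := by
    ext j
    simp
  rw [h1, Finset.card_sdiff_of_subset (Finset.subset_univ _), Finset.card_pair hab]
  simp

lemma qf_smul {s : ℕ} (f : Mon s → ℝ) (y : Fin s → ℝ) (t : ℝ) :
    qf f (fun j => t * y j) = t ^ 2 * qf f y := by
  unfold qf
  rw [Finset.mul_sum]
  apply Finset.sum_congr rfl
  intro p _
  ring

lemma qf_sub {s : ℕ} (f : Mon s → ℝ) (z u : Fin s → ℝ) (ρ : ℝ) (hf : ∀ p, |f p| ≤ 1)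
    (hz : ∀ j, |z j| ≤ 1) (hu : ∀ j, |u j| ≤ 1) (hzu : ∀ j, |z j - u j| ≤ ρ) :
    |qf f z - qf f u| ≤ s * (s + 1) * ρ := by
  have hterm : ∀ p : Mon s, |f p * (z p.1.1 * z p.1.2) - f p * (u p.1.1 * u p.1.2)| ≤ 2 * ρ := by
    intro p
    have h1 : f p * (z p.1.1 * z p.1.2) - f p * (u p.1.1 * u p.1.2) =
        f p * (z p.1.1 * (z p.1.2 - u p.1.2) + (z p.1.1 - u p.1.1) * u p.1.2) := by ring
    rw [h1, abs_mul]
    have h2 : |z p.1.1 * (z p.1.2 - u p.1.2) + (z p.1.1 - u p.1.1) * u p.1.2| ≤ 2 * ρ := by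
      refine (abs_add_le _ _).trans ?_
      rw [abs_mul, abs_mul]
      have h3 : |z p.1.1| * |z p.1.2 - u p.1.2| ≤ 1 * ρ :=
        mul_le_mul (hz _) (hzu _) (abs_nonneg _) zero_le_one
      have h4 : |z p.1.1 - u p.1.1| * |u p.1.2| ≤ ρ * 1 :=
        mul_le_mul (hzu _) (hu _) (abs_nonneg _) ((abs_nonneg _).trans (hzu p.1.1))
      linarith
    calc |f p| * |z p.1.1 * (z p.1.2 - u p.1.2) + (z p.1.1 - u p.1.1) * u p.1.2|
        ≤ 1 * (2 * ρ) := mul_le_mul (hf p) h2 (abs_nonneg _) zero_le_one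
      _ = 2 * ρ := one_mul _
  unfold qf
  rw [← Finset.sum_sub_distrib]
  refine (Finset.abs_sum_le_sum_abs _ _).trans ?_
  refine (Finset.sum_le_card_nsmul _ _ (2 * ρ) (fun p _ => hterm p)).trans ?_
  rw [nsmul_eq_mul, Finset.card_univ]
  have h5 : ((2 * md s : ℕ) : ℝ) ≤ ((s * (s + 1) : ℕ) : ℝ) := by exact_mod_cast two_md_le s
  push_cast at h5
  rcases isEmpty_or_nonempty (Fin s) with h6 | ⟨⟨j⟩⟩
  · have h7 : Fintype.card (Mon s) = 0 := by
      rw [Fintype.card_eq_zero_iff]
      exact ⟨fun p => h6.elim p.1.1⟩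
    have h8 : s = 0 := by
      by_contra h
      exact h6.elim ⟨0, Nat.pos_of_ne_zero h⟩
    rw [h7, h8]
    simp
  · have hρ : 0 ≤ ρ := (abs_nonneg _).trans (hzu j)
    calc (Fintype.card (Mon s) : ℝ) * (2 * ρ) = 2 * (md s : ℝ) * ρ := by
          unfold md
          ring
      _ ≤ s * (s + 1) * ρ := mul_le_mul_of_nonneg_right h5 hρ

theorem pf_CUB (hNEW : T_NEW) : T_CUB := by
  classical
  intro s d hd
  obtain ⟨r, c0, hr, hc0, hN⟩ := hNEW s d hd
  obtain ⟨c, hc, hcc0, hc16⟩ : ∃ c : ℝ, 0 < c ∧ c ≤ c0 ∧ c ≤ 1 / 16 :=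
    ⟨min c0 (1 / 16), lt_min hc0 (by norm_num), min_le_left _ _, min_le_right _ _⟩
  refine ⟨r, c / 8, hr, by positivity, ?_⟩
  intro f x hf hx hx1 hq hj ρ hρ hρc
  obtain ⟨a, b, hab⟩ := hj
  have hne : a ≠ b := by
    intro h
    rw [h] at hab
    have : jm f x b b = 0 := by
      unfold jm
      ring
    rw [this, abs_zero] at hab
    linarith
  obtain ⟨M, hM⟩ : ∃ M, M = ⌊c / (4 * ρ)⌋₊ := ⟨_, rfl⟩
  obtain ⟨G, hG⟩ : ∃ G : Finset (Fin s → ℕ), G =
      Fintype.piFinset fun j => if j = a ∨ j = b then ({0} : Finset ℕ) else range (M + 1) :=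
    ⟨_, rfl⟩
  have hGa : ∀ k ∈ G, ∀ j, (j = a ∨ j = b) → k j = 0 := by
    intro k hk j hj
    rw [hG, Fintype.mem_piFinset] at hk
    have := hk j
    rw [if_pos hj, Finset.mem_singleton] at this
    exact this
  have hGM : ∀ k ∈ G, ∀ j, k j ≤ M := by
    intro k hk j
    by_cases hj : j = a ∨ j = b
    · rw [hGa k hk j hj]
      exact Nat.zero_le _
    · rw [hG, Fintype.mem_piFinset] at hk
      have := hk j
      rw [if_neg hj, Finset.mem_range] at this
      omega
  have hMle : (M : ℝ) * (4 * ρ) ≤ c := by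
    have h1 : (M : ℝ) ≤ c / (4 * ρ) := by
      rw [hM]
      exact Nat.floor_le (by positivity)
    rwa [le_div_iff₀ (by positivity)] at h1
  have hw : ∀ k ∈ G, ∀ j, |4 * ρ * (k j : ℝ)| ≤ c := by
    intro k hk j
    rw [abs_of_nonneg (by positivity)]
    have h1 : (k j : ℝ) ≤ M := by exact_mod_cast hGM k hk j
    calc 4 * ρ * (k j : ℝ) ≤ 4 * ρ * M := mul_le_mul_of_nonneg_left h1 (by positivity)
      _ = M * (4 * ρ) := by ring
      _ ≤ c := hMle
  have hex : ∀ k : Fin s → ℕ, ∃ y : Fin s → ℝ, k ∈ G →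
      (∀ j, j ≠ a → j ≠ b → y j = x j + 4 * ρ * (k j : ℝ)) ∧ (∀ j, |y j - x j| ≤ 1 / 16) ∧
      ∀ i, qf (f i) y = 0 := by
    intro k
    by_cases hk : k ∈ G
    · obtain ⟨y, h1, h2, h3⟩ := hN f x a b hf hx hq hab (fun j => 4 * ρ * (k j : ℝ))
        (fun j => (hw k hk j).trans hcc0)
      exact ⟨y, fun _ => ⟨h1, h2, h3⟩⟩
    · exact ⟨0, fun h => absurd h hk⟩
  choose y hy using hex
  -- separation
  have hsep : ∀ k ∈ G, ∀ k' ∈ G, k ≠ k' →
      ∃ j, 2 * ρ < |3 / 4 * y k j - 3 / 4 * y k' j| := by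
    intro k hk k' hk' hkk
    obtain ⟨j, hj⟩ := Function.ne_iff.1 hkk
    have hja : ¬ (j = a ∨ j = b) := by
      intro h
      exact hj ((hGa k hk j h).trans (hGa k' hk' j h).symm)
    push Not at hja
    refine ⟨j, ?_⟩
    rw [(hy k hk).1 j hja.1 hja.2, (hy k' hk').1 j hja.1 hja.2]
    have h1 : 3 / 4 * (x j + 4 * ρ * (k j : ℝ)) - 3 / 4 * (x j + 4 * ρ * (k' j : ℝ)) =
        3 * ρ * ((k j : ℝ) - k' j) := by ring
    rw [h1, abs_mul, abs_of_pos (by positivity : 0 < 3 * ρ)]
    have h2 : (1 : ℝ) ≤ |(k j : ℝ) - k' j| := by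
      have h3 : ((k j : ℤ) - k' j) ≠ 0 := by
        intro h
        apply hj
        have : (k j : ℤ) = k' j := by linarith
        exact_mod_cast this
      have h4 : (1 : ℤ) ≤ |(k j : ℤ) - k' j| := Int.one_le_abs h3
      exact_mod_cast h4
    nlinarith
  refine ⟨G.image fun k j => 3 / 4 * y k j, ?_, ?_, ?_⟩
  · -- cardinality
    have hinj : (G.image fun k j => 3 / 4 * y k j).card = G.card := by
      apply Finset.card_image_of_injOn
      intro k hk k' hk' h
      by_contra hkk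
      obtain ⟨j, hj⟩ := hsep k hk k' hk' hkk
      have h1 := congrFun h j
      simp only at h1
      rw [h1, sub_self, abs_zero] at hj
      linarith
    rw [hinj, hG, Fintype.card_piFinset]
    have h1 : (∏ j : Fin s, (if j = a ∨ j = b then ({0} : Finset ℕ) else range (M + 1)).card) =
        (M + 1) ^ (s - 2) := by
      have h2 : ∀ j : Fin s, (if j = a ∨ j = b then ({0} : Finset ℕ) else range (M + 1)).card =
          if j = a ∨ j = b then 1 else M + 1 := by
        intro j
        split_ifs <;> simp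
      rw [Finset.prod_congr rfl (fun j _ => h2 j), Finset.prod_ite, Finset.prod_const_one, one_mul,
        Finset.prod_const, card_ab hne]
    rw [h1]
    push_cast
    apply pow_le_pow_left₀ (by positivity)
    have h3 : c / (4 * ρ) < (M : ℝ) + 1 := by
      rw [hM]
      exact Nat.lt_floor_add_one _
    have h4 : c / 8 / ρ ≤ c / (4 * ρ) := by
      rw [div_div]
      apply div_le_div_of_nonneg_left hc.le (by positivity)
      linarith
    linarith
  · intro u hu z hz
    rw [Finset.mem_image] at hu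
    obtain ⟨k, hk, rfl⟩ := hu
    obtain ⟨h1, h2, h3⟩ := hy k hk
    have hρ' : ρ ≤ 1 / 128 := by linarith
    have hyj : ∀ j, |y k j| ≤ 17 / 16 := by
      intro j
      have h4 : y k j = (y k j - x j) + x j := by ring
      rw [h4]
      refine (abs_add_le _ _).trans ?_
      have := h2 j
      have := hx j
      linarith
    have hu1 : ∀ j, |3 / 4 * y k j| ≤ 51 / 64 := by
      intro j
      rw [abs_mul, abs_of_pos (by norm_num : (0 : ℝ) < 3 / 4)]
      have := hyj j
      linarith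
    have hz1 : ∀ j, |z j| ≤ 1 := by
      intro j
      have h4 : z j = (z j - 3 / 4 * y k j) + 3 / 4 * y k j := by ring
      rw [h4]
      refine (abs_add_le _ _).trans ?_
      have := hz j
      have := hu1 j
      linarith
    refine ⟨hz1, ?_, ?_⟩
    · obtain ⟨j, hj⟩ := hx1
      refine ⟨j, ?_⟩
      have h4 : |x j| ≤ |y k j - x j| + |y k j| := by
        have h5 : x j = y k j - (y k j - x j) := by ring
        calc |x j| = |y k j - (y k j - x j)| := by rw [← h5]
          _ ≤ |y k j| + |y k j - x j| := abs_sub _ _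
          _ = _ := add_comm _ _
      have h5 : |3 / 4 * y k j| ≤ |z j - 3 / 4 * y k j| + |z j| := by
        calc |3 / 4 * y k j| = |z j - (z j - 3 / 4 * y k j)| := by rw [sub_sub_cancel]
          _ ≤ |z j| + |z j - 3 / 4 * y k j| := abs_sub _ _
          _ = _ := add_comm _ _
      rw [abs_mul, abs_of_pos (by norm_num : (0 : ℝ) < 3 / 4)] at h5
      have := h2 j
      have := hz j
      rw [hj] at h4
      linarith
    · intro i
      have h4 : qf (f i) (fun j => 3 / 4 * y k j) = 0 := by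
        rw [qf_smul, h3 i, mul_zero]
      have h5 := qf_sub (f i) z (fun j => 3 / 4 * y k j) ρ (hf i) hz1
        (fun j => (hu1 j).trans (by norm_num)) hz
      rw [h4, sub_zero] at h5
      exact h5
  · intro u hu u' hu' huu
    rw [Finset.mem_image] at hu hu'
    obtain ⟨k, hk, rfl⟩ := hu
    obtain ⟨k', hk', rfl⟩ := hu'
    have hkk : k ≠ k' := by
      intro h
      apply huu
      rw [h]
    exact hsep k hk k' hk' hkk

end Pool.Agent.H80.RQ
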