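import Pool.Agent.H32.RQ.Targets

/-!
Row DLT: a large minor of the squares.
-/

set_option autoImplicit false

open Finset Pool.Agent.H32.RQ

namespace Pool.Agent.H80.RQ

theorem pf_DLT : T_DLT := by
  intro s B x y hx hy ⟨i, hi⟩ ⟨l', hl'⟩
  have hB : (0 : ℤ) < B := by
    have h1 := hx i
    have h2 : (0 : ℤ) ≤ B := Int.natCast_nonneg B
    rcases h2.lt_or_eq with h3 | h3
    · exact h3
    · rw [← h3] at hi h1
      have := abs_nonneg (x i)
      linarith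
  -- a greatest minor
  obtain ⟨⟨a, c⟩, -, hac⟩ := Finset.exists_mem_eq_sup (univ : Finset (Fin s × Fin s)) ⟨(i, i), mem_univ _⟩
    (fun p : Fin s × Fin s => (mnr x y p.1 p.2).natAbs)
  have hdm : (dm x y : ℤ) = |mnr x y a c| := by
    unfold dm
    rw [hac, Int.natCast_natAbs]
  -- a large minor with the index `i`
  have hl : ∃ l, (dm x y : ℤ) ≤ 4 * |mnr x y i l| := by
    have h1 : x i * mnr x y a c = x a * mnr x y i c - x c * mnr x y i a := by
      unfold mnr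
      ring
    have h2 : |x i| * dm x y ≤ B * |mnr x y i c| + B * |mnr x y i a| := by
      rw [hdm, ← abs_mul, h1]
      refine (abs_sub _ _).trans ?_
      rw [abs_mul, abs_mul]
      exact add_le_add (mul_le_mul_of_nonneg_right (hx a) (abs_nonneg _))
        (mul_le_mul_of_nonneg_right (hx c) (abs_nonneg _))
    have h3 : (0 : ℤ) ≤ dm x y := Int.natCast_nonneg _
    have h4 : (B : ℤ) * dm x y ≤ B * (2 * |mnr x y i c| + 2 * |mnr x y i a|) := by
      have h5 : (B : ℤ) * dm x y ≤ 2 * |x i| * dm x y := mul_le_mul_of_nonneg_right hi.le h3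
      linarith
    have h5 : (dm x y : ℤ) ≤ 2 * |mnr x y i c| + 2 * |mnr x y i a| := le_of_mul_le_mul_left h4 hB
    rcases le_total (|mnr x y i a|) (|mnr x y i c|) with h6 | h6
    · exact ⟨c, by linarith⟩
    · exact ⟨a, by linarith⟩
  obtain ⟨l, hl⟩ := hl
  have hnab : ∀ z : ℤ, (B : ℤ) ^ 2 * dm x y ≤ 64 * |z| → B ^ 2 * dm x y ≤ 64 * z.natAbs := by
    intro z hz
    zify
    exact hz
  by_cases h8 : (B : ℤ) ≤ 8 * |y i|
  · obtain ⟨q, hqx, hqy⟩ : ∃ q : Mon s, nu x q = x i * x l ∧ nu y q = y i * y l := by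
      rcases le_total i l with h | h
      · exact ⟨⟨(i, l), h⟩, rfl, rfl⟩
      · exact ⟨⟨(l, i), h⟩, mul_comm _ _, mul_comm _ _⟩
    refine ⟨⟨(i, i), le_rfl⟩, q, hnab _ ?_⟩
    have h1 : nu x (⟨(i, i), le_rfl⟩ : Mon s) * nu y q - nu x q * nu y (⟨(i, i), le_rfl⟩ : Mon s) =
        x i * y i * mnr x y i l := by
      rw [hqx, hqy]
      unfold nu mnr
      ring
    rw [h1, abs_mul, abs_mul]
    have h2 : (B : ℤ) * B ≤ (2 * |x i|) * (8 * |y i|) := mul_le_mul hi.le h8 hB.le (by positivity)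
    have h3 : (B : ℤ) * B * dm x y ≤ (2 * |x i|) * (8 * |y i|) * (4 * |mnr x y i l|) :=
      mul_le_mul h2 hl (Int.natCast_nonneg _) (by positivity)
    calc (B : ℤ) ^ 2 * dm x y = B * B * dm x y := by ring
      _ ≤ (2 * |x i|) * (8 * |y i|) * (4 * |mnr x y i l|) := h3
      _ = 64 * (|x i| * |y i| * |mnr x y i l|) := by ring
  · push Not at h8
    refine ⟨⟨(i, i), le_rfl⟩, ⟨(l', l'), le_rfl⟩, hnab _ ?_⟩
    have h1 : nu x (⟨(i, i), le_rfl⟩ : Mon s) * nu y (⟨(l', l'), le_rfl⟩ : Mon s) -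
        nu x (⟨(l', l'), le_rfl⟩ : Mon s) * nu y (⟨(i, i), le_rfl⟩ : Mon s) =
        (|x i| * |y l'|) ^ 2 - (|x l'| * |y i|) ^ 2 := by
      unfold nu
      rw [mul_pow, mul_pow, sq_abs, sq_abs, sq_abs, sq_abs]
      ring
    rw [h1]
    have h2 : (B : ℤ) * B ≤ (2 * |x i|) * (2 * |y l'|) := mul_le_mul hi.le hl'.le hB.le (by positivity)
    have h3 : |x l'| * (8 * |y i|) ≤ B * B := mul_le_mul (hx l') h8.le (by positivity) hB.le
    have h4 : ((B : ℤ) * B) ^ 2 ≤ ((2 * |x i|) * (2 * |y l'|)) ^ 2 :=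
      pow_le_pow_left₀ (by positivity) h2 2
    have h5 : (|x l'| * (8 * |y i|)) ^ 2 ≤ ((B : ℤ) * B) ^ 2 :=
      pow_le_pow_left₀ (by positivity) h3 2
    have h6 : (dm x y : ℤ) ≤ 2 * (B * B) := by
      rw [hdm]
      unfold mnr
      refine (abs_sub _ _).trans ?_
      rw [abs_mul, abs_mul]
      have h7 : |x a| * |y c| ≤ (B : ℤ) * B := mul_le_mul (hx a) (hy c) (abs_nonneg _) hB.le
      have h9 : |x c| * |y a| ≤ (B : ℤ) * B := mul_le_mul (hx c) (hy a) (abs_nonneg _) hB.le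
      linarith
    have h7 : (B : ℤ) ^ 2 * dm x y ≤ 2 * (B * B) ^ 2 := by
      calc (B : ℤ) ^ 2 * dm x y ≤ B ^ 2 * (2 * (B * B)) :=
            mul_le_mul_of_nonneg_left h6 (by positivity)
        _ = 2 * (B * B) ^ 2 := by ring
    have h9 : ((|x i| * |y l'|) ^ 2 - (|x l'| * |y i|) ^ 2) ≤
        |(|x i| * |y l'|) ^ 2 - (|x l'| * |y i|) ^ 2| := le_abs_self _
    have h10 : (0 : ℤ) ≤ (B * B) ^ 2 := by positivity
    have h11 : 64 * ((|x i| * |y l'|) ^ 2 - (|x l'| * |y i|) ^ 2) =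
        4 * ((2 * |x i|) * (2 * |y l'|)) ^ 2 - (|x l'| * (8 * |y i|)) ^ 2 := by ring
    linarith

end Pool.Agent.H80.RQ
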